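import Mathlib
import Pool.Agent.helper87.PI.E6

set_option autoImplicit false

/-- There is an absolute constant `C` such that every finite loopless multigraph in which all
degrees are at most `Δ` (`Δ ≥ 2`) has a proper edge colouring with at most
`exp (C (log Δ) ^ 11)` distinct palettes. -/
theorem Pool.Agent.Results.MP_93b131_co.QuasiPolynomial.result :
    ∃ C : ℝ, ∀ n m : ℕ, ∀ s t : Fin m → Fin n, (∀ i, s i ≠ t i) →
      ∀ Δ : ℕ, 2 ≤ Δ →
        (∀ v : Fin n, (Finset.univ.filter (fun i : Fin m => s i = v ∨ t i = v)).card ≤ Δ) →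
        ∃ c : Fin m → ℕ,
          (∀ i j : Fin m, i ≠ j →
              (s i = s j ∨ s i = t j ∨ t i = s j ∨ t i = t j) → c i ≠ c j) ∧
          (((Finset.univ : Finset (Fin n)).image
              (fun v => (Finset.univ.filter
                (fun i : Fin m => s i = v ∨ t i = v)).image c)).card : ℝ)
            ≤ Real.exp (C * Real.log Δ ^ 11) :=
  Pool.Agent.helper87.PI.final
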